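import Pool.Agent.Helper83.BO.Geom

/-!
# MP_8ad3e9_gt: the ball
-/

set_option autoImplicit false

open MeasureTheory Set
open scoped MeasureTheory

namespace Pool.Agent.Helper83.BO

/-- Every unit vector lies on a great circle through `u`. -/
theorem exists_angle {u u' : E3} (hu : ‖u‖ = 1) (hu' : ‖u'‖ = 1) :
    ∃ (w : E3) (θ : ℝ), ‖w‖ = 1 ∧ inner ℝ u w = (0 : ℝ) ∧
      u' = Real.cos θ • u + Real.sin θ • w := by
  set c : ℝ := inner ℝ u u' with hc
  have hc1 : |c| ≤ 1 := by
    have := abs_real_inner_le_norm u u'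
    rwa [hu, hu', mul_one] at this
  have huu : inner ℝ u u = (1 : ℝ) := inner_self_one hu
  set d : E3 := u' - c • u with hd
  have hud : inner ℝ u d = (0 : ℝ) := by
    rw [hd, inner_sub_right, inner_smul_right, huu, ← hc]
    ring
  have hdn : ‖d‖ ^ 2 = 1 - c ^ 2 := by
    rw [hd, norm_sub_sq_real, hu', inner_smul_right, real_inner_comm, ← hc, norm_smul, hu,
      Real.norm_eq_abs, mul_one, sq_abs]
    ring
  have hcos : Real.cos (Real.arccos c) = c := Real.cos_arccos (abs_le.1 hc1).1 (abs_le.1 hc1).2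
  have hsin : Real.sin (Real.arccos c) = ‖d‖ := by
    rw [Real.sin_arccos, ← hdn, Real.sqrt_sq (norm_nonneg _)]
  by_cases h0 : d = 0
  · obtain ⟨w, hw, hwu⟩ := exists_orthogonal u
    refine ⟨w, Real.arccos c, hw, by rw [real_inner_comm]; exact hwu, ?_⟩
    rw [hcos, hsin, h0, norm_zero, zero_smul, add_zero]
    exact sub_eq_zero.1 h0
  · have hn : ‖d‖ ≠ 0 := norm_ne_zero_iff.2 h0
    refine ⟨‖d‖⁻¹ • d, Real.arccos c, ?_, ?_, ?_⟩
    · rw [norm_smul, norm_inv, norm_norm, inv_mul_cancel₀ hn]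
    · rw [inner_smul_right, hud, mul_zero]
    · rw [hcos, hsin, smul_smul, mul_inv_cancel₀ hn, one_smul, hd]
      abel

/-- A convex body which contains all its feet with respect to `a` is a ball. -/
theorem eq_ball {K : Set E3} (hconv : Convex ℝ K) (hK : IsCompact K) (hne : K.Nonempty) {a : E3}
    (hF : ∀ w : E3, w ≠ 0 → ∀ x ∈ K, foot a x w ∈ K) : ∃ R : ℝ, K = Metric.closedBall a R := by
  obtain ⟨x, hxK, hx⟩ := hK.exists_isMaxOn hne (f := fun y : E3 => dist y a) (by fun_prop)
  have hsub : K ⊆ Metric.closedBall a (dist x a) := fun y hy => hx hy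
  refine ⟨dist x a, hsub.antisymm ?_⟩
  rcases eq_or_ne (dist x a) 0 with h0 | h0
  · rw [h0, Metric.closedBall_zero, ← dist_eq_zero.1 h0]
    exact singleton_subset_iff.2 hxK
  set R := dist x a with hR
  have hR0 : 0 < R := lt_of_le_of_ne dist_nonneg (Ne.symm h0)
  set u : E3 := R⁻¹ • (x - a) with hu
  have hu1 : ‖u‖ = 1 := by
    rw [hu, norm_smul, norm_inv, Real.norm_of_nonneg hR0.le, ← dist_eq_norm, ← hR,
      inv_mul_cancel₀ h0]
  have hux : a + R • u ∈ K := by
    rw [hu, smul_smul, mul_inv_cancel₀ h0, one_smul, add_sub_cancel]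
    exact hxK
  have hT : ∀ x ∈ K, ∀ p : E3, inner ℝ (p - a) (x - p) = (0 : ℝ) → p ∈ K :=
    fun x hx p hp => thales_mem hF hx hp
  have hall : ∀ u' : E3, ‖u'‖ = 1 → a + R • u' ∈ K := by
    intro u' hu'
    obtain ⟨w, θ, hw, huw, e⟩ := exists_angle hu1 hu'
    rw [e]
    exact arc_mem hK.isClosed hT hu1 hw huw hux θ
  intro z hz
  rw [Metric.mem_closedBall, dist_eq_norm] at hz
  obtain ⟨u', hu', hz'⟩ : ∃ u' : E3, ‖u'‖ = 1 ∧ z = a + ‖z - a‖ • u' := by
    by_cases h : z - a = 0
    · refine ⟨u, hu1, ?_⟩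
      rw [h, norm_zero, zero_smul, add_zero]
      exact sub_eq_zero.1 h
    · have hn : ‖z - a‖ ≠ 0 := norm_ne_zero_iff.2 h
      refine ⟨‖z - a‖⁻¹ • (z - a), ?_, ?_⟩
      · rw [norm_smul, norm_inv, norm_norm, inv_mul_cancel₀ hn]
      · rw [smul_smul, mul_inv_cancel₀ hn, one_smul, add_sub_cancel]
  have h1 := hall u' hu'
  have h2 := hall (-u') (by rw [norm_neg]; exact hu')
  set r := ‖z - a‖ with hr
  have hr0 : 0 ≤ r := norm_nonneg _
  have h3 := hconv h1 h2 (a := (R + r) / (2 * R)) (b := (R - r) / (2 * R)) (by positivity)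
    (div_nonneg (by linarith) (by positivity)) (by field_simp; ring)
  have e1 : ((R + r) / (2 * R)) • (a + R • u') + ((R - r) / (2 * R)) • (a + R • (-u')) = z := by
    have e2 : ((R + r) / (2 * R)) • (a + R • u') + ((R - r) / (2 * R)) • (a + R • (-u')) =
        ((R + r) / (2 * R) + (R - r) / (2 * R)) • a +
          ((R + r) / (2 * R) * R - (R - r) / (2 * R) * R) • u' := by
      module
    rw [e2]
    have e3 : (R + r) / (2 * R) + (R - r) / (2 * R) = 1 := by field_simp; ring
    have e4 : (R + r) / (2 * R) * R - (R - r) / (2 * R) * R = r := by field_simp; ring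
    rw [e3, e4, one_smul]
    exact hz'.symm
  rw [← e1]
  exact h3

/-- If all shadows are parallel sections, then `K` is a ball. -/
theorem ball_of_full {K : Set E3} (hconv : Convex ℝ K) (hK : IsCompact K) (hne : K.Nonempty)
    (hP : ∀ e : E3, ‖e‖ = 1 → ∃ t, Full K e t) : ∃ (a : E3) (R : ℝ), K = Metric.closedBall a R := by
  obtain ⟨a, ha⟩ := exists_centre hK hne hP
  obtain ⟨R, hR⟩ := eq_ball hconv hK hne (a := a) fun w hw x hx => foot_mem hK hne hP ha hw hx
  exact ⟨a, R, hR⟩

/-- If in every direction the largest section is at least as large as the shadow, then `K` is a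
ball. -/
theorem ball_of_maxSec {K : Set E3} (hconv : Convex ℝ K) (hK : IsCompact K)
    (hint : (interior K).Nonempty)
    (h : ∀ e : E3, ‖e‖ = 1 → μH[2] (shadow K e) ≤ maxSec K e) :
    ∃ (a : E3) (R : ℝ), K = Metric.closedBall a R :=
  ball_of_full hconv hK (hint.mono interior_subset) fun e he =>
    exists_full he hconv hK hint (h e he)

/-- Constant sections and shadows, and one section at least as large as one shadow. -/
theorem ball_of_const {K : Set E3} (hconv : Convex ℝ K) (hK : IsCompact K)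
    (hint : (interior K).Nonempty) {c d : ENNReal} (hc : ∀ e : E3, ‖e‖ = 1 → maxSec K e = c)
    (hd : ∀ e : E3, ‖e‖ = 1 → μH[2] (shadow K e) = d) {e n : E3} (he : ‖e‖ = 1) (hn : ‖n‖ = 1)
    {s : ℝ} (h : μH[2] (shadow K e) ≤ μH[2] (K ∩ plane n s)) :
    ∃ (a : E3) (R : ℝ), K = Metric.closedBall a R := by
  refine ball_of_maxSec hconv hK hint fun e' he' => ?_
  rw [hd e' he', hc e' he', ← hd e he, ← hc n hn]
  exact h.trans (le_iSup (fun t => μH[2] (K ∩ plane n t)) s)

/-- One shadow is the shadow of a planar section. -/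
theorem area_le_of_planar {K : Set E3} {e n : E3} (he : ‖e‖ = 1) {s : ℝ}
    (h : ∀ x ∈ K, ∃ l : ℝ, x + l • e ∈ K ∧ inner ℝ n (x + l • e) = s) :
    μH[2] (shadow K e) ≤ μH[2] (K ∩ plane n s) := by
  refine le_trans (measure_mono ?_) (area_shadow_le he _)
  rintro _ ⟨x, hx, rfl⟩
  obtain ⟨l, h1, h2⟩ := h x hx
  refine ⟨x + l • e, ⟨h1, h2⟩, ?_⟩
  show x + l • e - (inner ℝ e (x + l • e)) • e = x - (inner ℝ e x) • e
  rw [inner_add_right, inner_smul_right, inner_self_one he, mul_one, add_smul]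
  abel

end Pool.Agent.Helper83.BO
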