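import Pool.Agent.Helper83.BO.Meas

/-!
# MP_8ad3e9_gt: convex bodies all of whose shadows are parallel sections
-/

set_option autoImplicit false

open MeasureTheory Set
open scoped MeasureTheory

namespace Pool.Agent.Helper83.BO

/-- `x` is the only point of `K` where `⟨v, ·⟩` is maximal. -/
def Reg (K : Set E3) (v x : E3) : Prop := x ∈ K ∧ ∀ y ∈ K, inner ℝ v x ≤ inner ℝ v y → y = x

/-- The plane orthogonal to `e` at height `t` contains the whole shadow. -/
def Full (K : Set E3) (e : E3) (t : ℝ) : Prop := ∀ x ∈ K, x - (inner ℝ e x) • e + t • e ∈ K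

/-- Directions with only one supporting point are dense. -/
theorem exists_regular {K : Set E3} (hK : IsCompact K) (hne : K.Nonempty) (v0 : E3) {ε : ℝ}
    (hε : 0 < ε) : ∃ v x, ‖v - v0‖ < ε ∧ Reg K v x := by
  obtain ⟨C, hC, hCK⟩ := hK.isBounded.exists_pos_norm_le
  set N : ℝ := C / ε + 1 with hN
  have hN0 : 0 < N := by positivity
  obtain ⟨x, hxK, hx⟩ := hK.exists_isMaxOn hne
    (f := fun y : E3 => ‖y + N • v0‖) (by fun_prop)
  refine ⟨v0 + N⁻¹ • x, x, ?_, hxK, ?_⟩
  · rw [add_sub_cancel_left, norm_smul, Real.norm_of_nonneg (by positivity)]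
    have h1 : ‖x‖ ≤ C := hCK x hxK
    have h2 : C < ε * N := by
      rw [hN, mul_add, mul_div_cancel₀ _ hε.ne']
      linarith
    calc N⁻¹ * ‖x‖ ≤ N⁻¹ * C := by gcongr
      _ < N⁻¹ * (ε * N) := by gcongr
      _ = ε := by field_simp
  · intro y hy hle
    set v := v0 + N⁻¹ • x with hv
    have h1 : ‖y + N • v0‖ ≤ ‖x + N • v0‖ := hx hy
    have e1 : x + N • v0 = N • v := by
      rw [hv, smul_add, smul_smul, mul_inv_cancel₀ hN0.ne', one_smul]
      abel
    have e2 : y + N • v0 = N • v + (y - x) := by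
      rw [← e1]; abel
    rw [e1, e2] at h1
    have h2 : ‖N • v + (y - x)‖ ^ 2 ≤ ‖N • v‖ ^ 2 := by gcongr
    rw [norm_add_sq_real, inner_smul_left] at h2
    have h3 : (starRingEnd ℝ) N = N := rfl
    rw [h3, inner_sub_right] at h2
    have h4 : 0 ≤ 2 * (N * (inner ℝ v y - inner ℝ v x)) := by
      have : 0 ≤ inner ℝ v y - inner ℝ v x := by linarith
      positivity
    have h5 : ‖y - x‖ ^ 2 ≤ 0 := by linarith
    have h6 : ‖y - x‖ = 0 := by
      have := sq_nonneg ‖y - x‖
      exact pow_eq_zero_iff (two_ne_zero) |>.1 (le_antisymm h5 this)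
    exact sub_eq_zero.1 (norm_eq_zero.1 h6)

theorem Reg.value {K : Set E3} {e v x : E3} (hR : Reg K v x) (he : ‖e‖ = 1)
    (hev : inner ℝ v e = (0 : ℝ)) {t : ℝ} (hP : Full K e t) : inner ℝ e x = t := by
  have h1 := hR.2 _ (hP x hR.1) (by
    rw [inner_add_right, inner_sub_right, inner_smul_right, inner_smul_right, hev]
    simp)
  have h2 : (t - inner ℝ e x) • e = 0 := by
    rw [sub_smul]
    have : x - (inner ℝ e x) • e + t • e = x + (t • e - (inner ℝ e x) • e) := by abel
    rw [this] at h1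
    exact add_eq_left.1 h1
  have he0 : e ≠ 0 := by
    intro h
    rw [h, norm_zero] at he
    exact zero_ne_one he
  have h3 := (smul_eq_zero.1 h2).resolve_right he0
  linarith

theorem Reg.diff {K : Set E3} (hP : ∀ e : E3, ‖e‖ = 1 → ∃ t, Full K e t) {v x v' x' : E3}
    (h1 : Reg K v x) (h2 : Reg K v' x') : ∃ α β : ℝ, x - x' = α • v + β • v' := by
  have h3 : x - x' ∈ Submodule.span ℝ {v, v'} := by
    rw [← Submodule.orthogonal_orthogonal (Submodule.span ℝ {v, v'}), Submodule.mem_orthogonal]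
    intro u hu
    by_cases hu0 : u = 0
    · rw [hu0, inner_zero_left]
    have hn : ‖u‖ ≠ 0 := norm_ne_zero_iff.2 hu0
    set e : E3 := ‖u‖⁻¹ • u with he
    have he1 : ‖e‖ = 1 := by
      rw [he, norm_smul, norm_inv, norm_norm, inv_mul_cancel₀ hn]
    obtain ⟨t, ht⟩ := hP e he1
    have hv : inner ℝ v u = (0 : ℝ) :=
      Submodule.inner_right_of_mem_orthogonal (Submodule.subset_span (by simp)) hu
    have hv' : inner ℝ v' u = (0 : ℝ) :=
      Submodule.inner_right_of_mem_orthogonal (Submodule.subset_span (by simp)) hu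
    have e1 : inner ℝ e x = t := h1.value he1 (by rw [he, inner_smul_right, hv, mul_zero]) ht
    have e2 : inner ℝ e x' = t := h2.value he1 (by rw [he, inner_smul_right, hv', mul_zero]) ht
    have e3 : inner ℝ e (x - x') = (0 : ℝ) := by rw [inner_sub_right, e1, e2, sub_self]
    have e4 : inner ℝ e (x - x') = ‖u‖⁻¹ * inner ℝ u (x - x') := by
      rw [he, inner_smul_left]
      rfl
    rw [e4] at e3
    exact (mul_eq_zero.1 e3).resolve_left (inv_ne_zero hn)
  obtain ⟨α, β, h⟩ := Submodule.mem_span_pair.1 h3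
  exact ⟨α, β, h.symm⟩

/-- All normals at the regular points pass through one point. -/
theorem exists_centre {K : Set E3} (hK : IsCompact K) (hne : K.Nonempty)
    (hP : ∀ e : E3, ‖e‖ = 1 → ∃ t, Full K e t) :
    ∃ a : E3, ∀ v x, v ≠ 0 → Reg K v x → ∃ l : ℝ, x = a + l • v := by
  -- three independent regular directions
  have hop : IsOpen {f : Fin 3 → E3 | LinearIndependent ℝ f} := isOpen_setOfPred_linearIndependent
  have hb : (EuclideanSpace.basisFun (Fin 3) ℝ : Fin 3 → E3) ∈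
      {f : Fin 3 → E3 | LinearIndependent ℝ f} :=
    (EuclideanSpace.basisFun (Fin 3) ℝ).orthonormal.linearIndependent
  obtain ⟨ε, hε, hball⟩ := Metric.isOpen_iff.1 hop _ hb
  choose V X hVX hR using fun i : Fin 3 =>
    exists_regular hK hne ((EuclideanSpace.basisFun (Fin 3) ℝ : Fin 3 → E3) i) hε
  have hV : LinearIndependent ℝ V := by
    apply hball
    rw [Metric.mem_ball, dist_pi_lt_iff hε]
    intro i
    rw [dist_eq_norm]
    exact hVX i
  let B : Module.Basis (Fin 3) ℝ E3 := basisOfLinearIndependentOfCardEqFinrank hV (by simp)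
  have hB : ∀ i, B i = V i := fun i => by
    simp [B]
  have hcV : ∀ i j, i ≠ j → B.repr (V i) j = 0 := by
    intro i j hij
    rw [← hB, Module.Basis.repr_self, Finsupp.single_apply, if_neg hij]
  have hgen : ∀ v x, Reg K v x → ∀ i, ∃ α : ℝ, ∀ j, i ≠ j →
      B.repr x j - B.repr (X i) j = α * B.repr v j := by
    intro v x hvx i
    obtain ⟨α, β, h⟩ := Reg.diff hP hvx (hR i)
    refine ⟨α, fun j hij => ?_⟩
    have h1 : B.repr (x - X i) j = B.repr (α • v + β • V i) j := by rw [h]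
    rw [map_sub, map_add, map_smul, map_smul, Finsupp.sub_apply, Finsupp.add_apply,
      Finsupp.smul_apply, Finsupp.smul_apply, hcV i j hij, smul_zero, add_zero, smul_eq_mul] at h1
    exact h1
  have hX : ∀ i k j, i ≠ j → k ≠ j → B.repr (X i) j = B.repr (X k) j := by
    intro i k j hij hkj
    obtain ⟨α, h⟩ := hgen (V i) (X i) (hR i) k
    have h1 := h j hkj
    rw [hcV i j hij, mul_zero] at h1
    linarith
  let a : E3 := B.equivFun.symm ![B.repr (X 1) 0, B.repr (X 0) 1, B.repr (X 0) 2]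
  have ha : ∀ j, B.repr a j = (![B.repr (X 1) 0, B.repr (X 0) 1, B.repr (X 0) 2] : Fin 3 → ℝ) j := by
    intro j
    have : B.equivFun a = ![B.repr (X 1) 0, B.repr (X 0) 1, B.repr (X 0) 2] :=
      LinearEquiv.apply_symm_apply _ _
    exact congrFun this j
  have haX : ∀ i j, i ≠ j → B.repr (X i) j = B.repr a j := by
    intro i j hij
    rw [ha]
    fin_cases j
    · exact hX i 1 0 hij (by decide)
    · exact hX i 0 1 hij (by decide)
    · exact hX i 0 2 hij (by decide)
  refine ⟨a, fun v x hv hvx => ?_⟩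
  have hk : ∃ k, B.repr v k ≠ 0 := by
    by_contra hcon
    push Not at hcon
    apply hv
    apply B.repr.injective
    ext k
    rw [hcon k, map_zero]
    rfl
  obtain ⟨k, hk⟩ := hk
  refine ⟨(B.repr x k - B.repr a k) / B.repr v k, ?_⟩
  apply B.repr.injective
  ext j
  rw [map_add, map_smul, Finsupp.add_apply, Finsupp.smul_apply, smul_eq_mul]
  by_cases hjk : j = k
  · rw [hjk, div_mul_cancel₀ _ hk]
    ring
  · obtain ⟨i, hij, hik⟩ : ∃ i : Fin 3, i ≠ j ∧ i ≠ k := (by decide :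
        ∀ j k : Fin 3, ∃ i : Fin 3, i ≠ j ∧ i ≠ k) j k
    obtain ⟨α, h⟩ := hgen v x hvx i
    have h1 := h j hij
    have h2 := h k hik
    rw [haX i j hij] at h1
    rw [haX i k hik] at h2
    rw [h2, mul_div_assoc, div_self hk, mul_one, ← h1]
    ring

/-- The projection of `x` along `w` onto the plane through `a` orthogonal to `w`. -/
noncomputable def foot (a x w : E3) : E3 := x - (inner ℝ w (x - a) / ‖w‖ ^ 2) • w

theorem foot_mem_of_reg {K : Set E3} (hP : ∀ e : E3, ‖e‖ = 1 → ∃ t, Full K e t) {a v x0 : E3}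
    (hR : Reg K v x0) {l : ℝ} (hx0 : x0 = a + l • v) {w : E3} (hw : w ≠ 0)
    (hvw : inner ℝ v w = (0 : ℝ)) {x : E3} (hx : x ∈ K) : foot a x w ∈ K := by
  have hn : ‖w‖ ≠ 0 := norm_ne_zero_iff.2 hw
  set e : E3 := ‖w‖⁻¹ • w with he
  have he1 : ‖e‖ = 1 := by
    rw [he, norm_smul, norm_inv, norm_norm, inv_mul_cancel₀ hn]
  obtain ⟨t, ht⟩ := hP e he1
  have hve : inner ℝ v e = (0 : ℝ) := by rw [he, inner_smul_right, hvw, mul_zero]
  have e1 : inner ℝ e x0 = t := hR.value he1 hve ht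
  have e2 : inner ℝ e a = t := by
    have hev : inner ℝ e v = (0 : ℝ) := by rw [real_inner_comm]; exact hve
    rw [hx0, inner_add_right, inner_smul_right, hev, mul_zero, add_zero] at e1
    exact e1
  have h1 := ht x hx
  have e3 : ∀ z : E3, inner ℝ e z = ‖w‖⁻¹ * inner ℝ w z := by
    intro z
    rw [he, inner_smul_left]
    rfl
  have e4 : x - (inner ℝ e x) • e + t • e = foot a x w := by
    unfold foot
    rw [← e2, e3, e3, inner_sub_right, he, smul_smul, smul_smul]
    have e5 : (inner ℝ w x - inner ℝ w a) / ‖w‖ ^ 2 =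
        ‖w‖⁻¹ * inner ℝ w x * ‖w‖⁻¹ - ‖w‖⁻¹ * inner ℝ w a * ‖w‖⁻¹ := by
      field_simp
    rw [e5, sub_smul]
    abel
  rw [← e4]
  exact h1

theorem continuousAt_foot (a x : E3) {w : E3} (hw : w ≠ 0) :
    ContinuousAt (fun w => foot a x w) w := by
  unfold foot
  have hn : ‖w‖ ^ 2 ≠ 0 := pow_ne_zero _ (norm_ne_zero_iff.2 hw)
  have h1 : ContinuousAt (fun w : E3 => (inner ℝ w (x - a) : ℝ) / ‖w‖ ^ 2) w := by
    apply ContinuousAt.div
    · fun_prop
    · fun_prop
    · exact hn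
  exact continuousAt_const.sub (h1.smul continuousAt_id)

/-- A unit vector orthogonal to `w`. -/
theorem exists_orthogonal (w : E3) : ∃ v : E3, ‖v‖ = 1 ∧ inner ℝ v w = (0 : ℝ) := by
  by_cases hw : w = 0
  · refine ⟨EuclideanSpace.basisFun (Fin 3) ℝ 0, ?_, ?_⟩
    · exact (EuclideanSpace.basisFun (Fin 3) ℝ).norm_eq_one 0
    · rw [hw, inner_zero_right]
  · have hn : ‖w‖ ≠ 0 := norm_ne_zero_iff.2 hw
    have he1 : ‖(‖w‖⁻¹ • w : E3)‖ = 1 := by
      rw [norm_smul, norm_inv, norm_norm, inv_mul_cancel₀ hn]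
    obtain ⟨b, hb⟩ := exists_basis he1
    refine ⟨b 1, b.norm_eq_one 1, ?_⟩
    have h10 : inner ℝ (b 1) (b 0) = (0 : ℝ) := b.orthonormal.inner_eq_zero (by decide)
    rw [hb, inner_smul_right] at h10
    exact (mul_eq_zero.1 h10).resolve_left (inv_ne_zero hn)

/-- All feet are in `K`. -/
theorem foot_mem {K : Set E3} (hK : IsCompact K) (hne : K.Nonempty)
    (hP : ∀ e : E3, ‖e‖ = 1 → ∃ t, Full K e t) {a : E3}
    (ha : ∀ v x, v ≠ 0 → Reg K v x → ∃ l : ℝ, x = a + l • v) {w : E3} (hw : w ≠ 0) {x : E3}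
    (hx : x ∈ K) : foot a x w ∈ K := by
  obtain ⟨v0, hv0, hv0w⟩ := exists_orthogonal w
  have hv00 : v0 ≠ 0 := by
    intro h
    rw [h, norm_zero] at hv0
    exact zero_ne_one hv0
  -- the perturbation of `w` which is orthogonal to `v`
  let g : E3 → E3 := fun v => w - (inner ℝ v w / ‖v‖ ^ 2) • v
  have hg0 : g v0 = w := by
    show w - (inner ℝ v0 w / ‖v0‖ ^ 2) • v0 = w
    rw [hv0w]
    simp
  have hgc : ContinuousAt g v0 := by
    have hn : ‖v0‖ ^ 2 ≠ 0 := pow_ne_zero _ (norm_ne_zero_iff.2 hv00)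
    have h1 : ContinuousAt (fun v : E3 => (inner ℝ v w : ℝ) / ‖v‖ ^ 2) v0 := by
      apply ContinuousAt.div
      · fun_prop
      · fun_prop
      · exact hn
    exact continuousAt_const.sub (h1.smul continuousAt_id)
  have hgo : ∀ v, v ≠ 0 → inner ℝ v (g v) = (0 : ℝ) := by
    intro v hv
    have hn : ‖v‖ ^ 2 ≠ 0 := pow_ne_zero _ (norm_ne_zero_iff.2 hv)
    show inner ℝ v (w - (inner ℝ v w / ‖v‖ ^ 2) • v) = (0 : ℝ)
    rw [inner_sub_right, inner_smul_right, real_inner_self_eq_norm_sq, div_mul_cancel₀ _ hn,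
      sub_self]
  have hcomp : ContinuousAt (fun v => foot a x (g v)) v0 := by
    apply ContinuousAt.comp (g := fun w => foot a x w) _ hgc
    rw [hg0]
    exact continuousAt_foot a x hw
  by_contra hcon
  have hopen : IsOpen Kᶜ := hK.isClosed.isOpen_compl
  have h1 : ∀ᶠ v in nhds v0, foot a x (g v) ∈ Kᶜ := by
    apply hcomp
    apply hopen.mem_nhds
    show foot a x (g v0) ∈ Kᶜ
    rw [hg0]
    exact hcon
  have h2 : ∀ᶠ v in nhds v0, g v ≠ 0 := by
    apply hgc.eventually_ne
    rw [hg0]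
    exact hw
  have h3 : ∀ᶠ v in nhds v0, v ≠ 0 := isOpen_ne.mem_nhds hv00
  obtain ⟨ε, hε, hball⟩ := Metric.eventually_nhds_iff.1 (h1.and (h2.and h3))
  obtain ⟨v, x0, hv, hR⟩ := exists_regular hK hne v0 hε
  obtain ⟨h4, h5, h6⟩ := hball (by rw [dist_eq_norm]; exact hv)
  obtain ⟨l, hl⟩ := ha v x0 h6 hR
  exact h4 (foot_mem_of_reg hP hR hl h5 (hgo v h6) hx)

/-- Thales. -/
theorem thales_mem {K : Set E3} {a : E3} (hF : ∀ w : E3, w ≠ 0 → ∀ x ∈ K, foot a x w ∈ K)
    {x p : E3} (hx : x ∈ K) (h : inner ℝ (p - a) (x - p) = (0 : ℝ)) : p ∈ K := by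
  by_cases hxp : x - p = 0
  · rw [← sub_eq_zero.1 hxp]
    exact hx
  · have h1 := hF (x - p) hxp x hx
    have h2 : inner ℝ (x - p) (x - a) = ‖x - p‖ ^ 2 := by
      have : x - a = (x - p) + (p - a) := by abel
      rw [this, inner_add_right, real_inner_self_eq_norm_sq, real_inner_comm, h, add_zero]
    have h3 : foot a x (x - p) = p := by
      unfold foot
      rw [h2, div_self (pow_ne_zero _ (norm_ne_zero_iff.2 hxp)), one_smul]
      abel
    rw [← h3]
    exact h1

/-- Spiralling: the points on the arc from `u` to `w`. -/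
theorem spiral_mem {K : Set E3} {a : E3}
    (hT : ∀ x ∈ K, ∀ p : E3, inner ℝ (p - a) (x - p) = (0 : ℝ) → p ∈ K) {u w : E3}
    (hu : ‖u‖ = 1) (hw : ‖w‖ = 1) (huw : inner ℝ u w = (0 : ℝ)) {R : ℝ} (hR : a + R • u ∈ K)
    (φ : ℝ) (k : ℕ) :
    a + (R * Real.cos φ ^ k) • (Real.cos (k * φ) • u + Real.sin (k * φ) • w) ∈ K := by
  induction k with
  | zero => simpa using hR
  | succ k ih =>
    refine hT _ ih _ ?_
    have huu : inner ℝ u u = (1 : ℝ) := inner_self_one hu
    have hww : inner ℝ w w = (1 : ℝ) := inner_self_one hw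
    have hwu : inner ℝ w u = (0 : ℝ) := by rw [real_inner_comm]; exact huw
    have hin : ∀ s t : ℝ, inner ℝ (Real.cos s • u + Real.sin s • w)
        (Real.cos t • u + Real.sin t • w) = Real.cos (s - t) := by
      intro s t
      rw [inner_add_left, inner_add_right, inner_add_right, inner_smul_left, inner_smul_left,
        inner_smul_left, inner_smul_left, inner_smul_right, inner_smul_right, inner_smul_right,
        inner_smul_right, huu, hww, huw, hwu, Real.cos_sub]
      simp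
    have e1 : ∀ (p x : E3), (a + p) - a = p ∧ (a + x) - (a + p) = x - p := by
      intro p x
      constructor <;> abel
    rw [(e1 _ 0).1, (e1 _ _).2, inner_sub_right, inner_smul_left, inner_smul_left,
      inner_smul_right, inner_smul_right, hin, hin, sub_self, Real.cos_zero]
    have e2 : ((k + 1 : ℕ) : ℝ) * φ - (k : ℝ) * φ = φ := by push_cast; ring
    rw [e2]
    have e3 : (starRingEnd ℝ) (R * Real.cos φ ^ (k + 1)) = R * Real.cos φ ^ (k + 1) := rfl
    rw [e3]
    ring

theorem tendsto_cos_pow (θ : ℝ) :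
    Filter.Tendsto (fun n : ℕ => Real.cos (θ / n) ^ n) Filter.atTop (nhds 1) := by
  have h1 : Filter.Tendsto (fun n : ℕ => 1 - θ ^ 2 / 2 / n) Filter.atTop (nhds 1) := by
    have h2 : Filter.Tendsto (fun n : ℕ => θ ^ 2 / 2 / (n : ℝ)) Filter.atTop (nhds 0) :=
      tendsto_const_div_atTop_nhds_zero_nat _
    simpa using h2.const_sub 1
  refine tendsto_of_tendsto_of_tendsto_of_le_of_le' h1 tendsto_const_nhds ?_ ?_
  · obtain ⟨N, hN⟩ := exists_nat_ge (θ ^ 2)
    filter_upwards [Filter.eventually_ge_atTop (N + 1)] with n hn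
    have hn0 : (0 : ℝ) < n := by
      have : 0 < n := by omega
      exact_mod_cast this
    have hn1 : θ ^ 2 ≤ n := hN.trans (by exact_mod_cast (by omega : N ≤ n))
    have hn2 : (1 : ℝ) ≤ n := by
      have : 1 ≤ n := by omega
      exact_mod_cast this
    have hc : 1 - (θ / n) ^ 2 / 2 ≤ Real.cos (θ / n) := Real.one_sub_sq_div_two_le_cos
    have hle : (θ / n) ^ 2 / 2 ≤ 1 := by
      rw [div_pow, div_div, div_le_one (by positivity)]
      nlinarith
    have h3 : 1 + (n : ℝ) * (-((θ / n) ^ 2 / 2)) ≤ (1 + -((θ / n) ^ 2 / 2)) ^ n :=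
      one_add_mul_le_pow (by linarith) n
    have h4 : (1 + -((θ / n) ^ 2 / 2)) ^ n ≤ Real.cos (θ / n) ^ n := by
      gcongr
      · linarith
      · linarith
    have h5 : 1 - θ ^ 2 / 2 / n = 1 + (n : ℝ) * (-((θ / n) ^ 2 / 2)) := by
      field_simp
      ring
    rw [h5]
    exact h3.trans h4
  · refine Filter.Eventually.of_forall fun n => ?_
    rcases Nat.eq_zero_or_pos n with h | h
    · rw [h]; simp
    · have h1 : |Real.cos (θ / n) ^ n| ≤ 1 := by
        rw [abs_pow]
        exact pow_le_one₀ (abs_nonneg _) (Real.abs_cos_le_one _)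
      exact (le_abs_self _).trans h1

/-- All points at the largest distance from `a`. -/
theorem arc_mem {K : Set E3} {a : E3} (hK : IsClosed K)
    (hT : ∀ x ∈ K, ∀ p : E3, inner ℝ (p - a) (x - p) = (0 : ℝ) → p ∈ K) {u w : E3}
    (hu : ‖u‖ = 1) (hw : ‖w‖ = 1) (huw : inner ℝ u w = (0 : ℝ)) {R : ℝ} (hR : a + R • u ∈ K)
    (θ : ℝ) : a + R • (Real.cos θ • u + Real.sin θ • w) ∈ K := by
  have h1 : Filter.Tendsto (fun n : ℕ => a + (R * Real.cos (θ / n) ^ n) •
      (Real.cos θ • u + Real.sin θ • w)) Filter.atTop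
      (nhds (a + (R * 1) • (Real.cos θ • u + Real.sin θ • w))) :=
    (((tendsto_cos_pow θ).const_mul R).smul_const _).const_add a
  rw [mul_one] at h1
  refine hK.mem_of_tendsto h1 ?_
  filter_upwards [Filter.eventually_ge_atTop 1] with n hn
  have hn0 : (n : ℝ) ≠ 0 := by
    have : n ≠ 0 := by omega
    exact_mod_cast this
  have h2 := spiral_mem hT hu hw huw hR (θ / n) n
  rwa [mul_div_cancel₀ _ hn0] at h2

end Pool.Agent.Helper83.BO
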