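import Mathlib

/-!
# MP_8ad3e9_gt: sections and shadows, measure theory
-/

set_option autoImplicit false

open MeasureTheory Set
open scoped MeasureTheory

namespace Pool.Agent.Helper83.BO

/-- Euclidean 3-space. -/
abbrev E3 : Type := EuclideanSpace ℝ (Fin 3)

/-- Orthogonal projection along the unit vector `e`. -/
noncomputable def pr (e : E3) (x : E3) : E3 := x - (inner ℝ e x) • e

/-- The shadow of `K` in the direction `e`. -/
def shadow (K : Set E3) (e : E3) : Set E3 :=
  (fun x : E3 => x - (inner ℝ e x) • e) '' K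

/-- The plane `⟨e, x⟩ = t`. -/
def plane (e : E3) (t : ℝ) : Set E3 := {x : E3 | inner ℝ e x = t}

/-- The maximal section area. -/
noncomputable def maxSec (K : Set E3) (e : E3) : ENNReal := ⨆ t : ℝ, μH[2] (K ∩ plane e t)

theorem inner_self_one {e : E3} (he : ‖e‖ = 1) : inner ℝ e e = (1 : ℝ) := by
  rw [real_inner_self_eq_norm_sq, he, one_pow]

theorem norm_pr_le {e : E3} (he : ‖e‖ = 1) (x : E3) : ‖pr e x‖ ≤ ‖x‖ := by
  have h1 : ‖pr e x‖ ^ 2 = ‖x‖ ^ 2 - (inner ℝ e x) ^ 2 := by
    unfold pr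
    rw [norm_sub_sq_real, inner_smul_right, norm_smul, he, mul_one, Real.norm_eq_abs, sq_abs,
      real_inner_comm x e]
    ring
  have h2 : ‖pr e x‖ ^ 2 ≤ ‖x‖ ^ 2 := by
    rw [h1]
    have := sq_nonneg (inner ℝ e x : ℝ)
    linarith
  exact (sq_le_sq₀ (norm_nonneg _) (norm_nonneg _)).1 h2

theorem pr_sub (e x y : E3) : pr e x - pr e y = pr e (x - y) := by
  unfold pr
  rw [inner_sub_right, sub_smul]
  abel

theorem lipschitz_pr {e : E3} (he : ‖e‖ = 1) : LipschitzWith 1 (pr e) := by
  refine LipschitzWith.of_dist_le_mul fun x y => ?_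
  rw [dist_eq_norm, dist_eq_norm, pr_sub, NNReal.coe_one, one_mul]
  exact norm_pr_le he _

/-- The projection does not increase the area. -/
theorem area_shadow_le {e : E3} (he : ‖e‖ = 1) (S : Set E3) :
    μH[2] (shadow S e) ≤ μH[2] S := by
  have h := (lipschitz_pr he).hausdorffMeasure_image_le (d := 2) (by norm_num) S
  change μH[2] (pr e '' S) ≤ μH[2] S
  simpa using h

/-- A section parallel to the plane of projection has the same area as its shadow. -/
theorem area_sec_eq {e : E3} (K : Set E3) (t : ℝ) :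
    μH[2] (shadow (K ∩ plane e t) e) = μH[2] (K ∩ plane e t) := by
  have e1 : shadow (K ∩ plane e t) e = (fun x : E3 => x - t • e) '' (K ∩ plane e t) := by
    unfold shadow
    apply image_congr
    rintro x ⟨-, hx⟩
    have hx' : inner ℝ e x = t := hx
    rw [hx']
  rw [e1]
  have h1 : Isometry fun x : E3 => x - t • e := by
    apply Isometry.of_dist_eq
    intro x y
    rw [dist_sub_right]
  exact h1.hausdorffMeasure_image (Or.inl (by norm_num)) _

theorem area_sec_le {e : E3} (K : Set E3) (t : ℝ) :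
    μH[2] (K ∩ plane e t) ≤ μH[2] (shadow K e) := by
  rw [← area_sec_eq]
  exact measure_mono (image_mono inter_subset_left)

theorem maxSec_le {e : E3} (K : Set E3) : maxSec K e ≤ μH[2] (shadow K e) :=
  iSup_le fun t => area_sec_le K t

/-- An orthonormal basis with a prescribed first vector. -/
theorem exists_basis {e : E3} (he : ‖e‖ = 1) : ∃ b : OrthonormalBasis (Fin 3) ℝ E3, b 0 = e := by
  have hv : Orthonormal ℝ (({0} : Set (Fin 3)).domRestrict fun _ : Fin 3 => e) := by
    constructor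
    · intro i
      exact he
    · intro i j hij
      exfalso
      apply hij
      have hi := i.2
      have hj := j.2
      rw [mem_singleton_iff] at hi hj
      exact Subtype.ext (hi.trans hj.symm)
  obtain ⟨b, hb⟩ := hv.exists_orthonormalBasis_extension_of_card_eq (by simp)
  exact ⟨b, hb 0 rfl⟩

/-- The two coordinates orthogonal to `b 0`. -/
noncomputable def crd (b : OrthonormalBasis (Fin 3) ℝ E3) : E3 →L[ℝ] (Fin 2 → ℝ) :=
  ContinuousLinearMap.pi ![innerSL ℝ (b 1), innerSL ℝ (b 2)]

theorem crd_zero (b : OrthonormalBasis (Fin 3) ℝ E3) (x : E3) :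
    crd b x 0 = inner ℝ (b 1) x := rfl

theorem crd_one (b : OrthonormalBasis (Fin 3) ℝ E3) (x : E3) :
    crd b x 1 = inner ℝ (b 2) x := rfl

theorem crd_surj (b : OrthonormalBasis (Fin 3) ℝ E3) : Function.Surjective (crd b) := by
  intro a
  have h11 : inner ℝ (b 1) (b 1) = (1 : ℝ) := inner_self_one (b.norm_eq_one 1)
  have h22 : inner ℝ (b 2) (b 2) = (1 : ℝ) := inner_self_one (b.norm_eq_one 2)
  have h12 : inner ℝ (b 1) (b 2) = (0 : ℝ) := b.orthonormal.inner_eq_zero (by decide)
  have h21 : inner ℝ (b 2) (b 1) = (0 : ℝ) := b.orthonormal.inner_eq_zero (by decide)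
  refine ⟨a 0 • b 1 + a 1 • b 2, ?_⟩
  funext i
  fin_cases i
  · show crd b (a 0 • b 1 + a 1 • b 2) 0 = a 0
    rw [crd_zero, inner_add_right, inner_smul_right, inner_smul_right, h11, h12]
    ring
  · show crd b (a 0 • b 1 + a 1 • b 2) 1 = a 1
    rw [crd_one, inner_add_right, inner_smul_right, inner_smul_right, h21, h22]
    ring

theorem crd_lip (b : OrthonormalBasis (Fin 3) ℝ E3) : LipschitzWith 1 (crd b) := by
  refine LipschitzWith.of_dist_le_mul fun x y => ?_
  rw [NNReal.coe_one, one_mul, dist_pi_le_iff dist_nonneg]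
  intro i
  have key : ∀ j : Fin 3, |(inner ℝ (b j) x : ℝ) - inner ℝ (b j) y| ≤ dist x y := by
    intro j
    rw [← inner_sub_right, dist_eq_norm]
    have := abs_real_inner_le_norm (b j) (x - y)
    rwa [b.norm_eq_one, one_mul] at this
  fin_cases i
  · show dist (crd b x 0) (crd b y 0) ≤ dist x y
    rw [crd_zero, crd_zero, Real.dist_eq]
    exact key 1
  · show dist (crd b x 1) (crd b y 1) ≤ dist x y
    rw [crd_one, crd_one, Real.dist_eq]
    exact key 2

theorem crd_pr {e : E3} {b : OrthonormalBasis (Fin 3) ℝ E3} (hb : b 0 = e) (x : E3) :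
    crd b (x - (inner ℝ e x) • e) = crd b x := by
  have h10 : inner ℝ (b 1) (b 0) = (0 : ℝ) := b.orthonormal.inner_eq_zero (by decide)
  have h20 : inner ℝ (b 2) (b 0) = (0 : ℝ) := b.orthonormal.inner_eq_zero (by decide)
  rw [hb] at h10 h20
  funext i
  fin_cases i
  · show crd b _ 0 = crd b x 0
    rw [crd_zero, crd_zero, inner_sub_right, inner_smul_right, h10]
    ring
  · show crd b _ 1 = crd b x 1
    rw [crd_one, crd_one, inner_sub_right, inner_smul_right, h20]
    ring

theorem vol_eq : (μH[2] : Measure (Fin 2 → ℝ)) = volume := by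
  have h := hausdorffMeasure_pi_real (ι := Fin 2)
  rw [Fintype.card_fin] at h
  exact_mod_cast h

/-- Shadows of sets with interior points have positive area. -/
theorem area_shadow_pos {e : E3} (he : ‖e‖ = 1) {U : Set E3} (hU : IsOpen U) (hne : U.Nonempty) :
    0 < μH[2] (shadow U e) := by
  obtain ⟨b, hb⟩ := exists_basis he
  have h1 : crd b '' shadow U e = crd b '' U := by
    unfold shadow
    rw [image_image]
    apply image_congr
    intro x _
    exact crd_pr hb x
  have h2 : μH[2] (crd b '' shadow U e) ≤ μH[2] (shadow U e) := by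
    have := (crd_lip b).hausdorffMeasure_image_le (d := 2) (by norm_num) (shadow U e)
    simpa using this
  refine lt_of_lt_of_le ?_ h2
  rw [h1, vol_eq]
  have h3 : IsOpen (crd b '' U) := (crd b).isOpenMap (crd_surj b) U hU
  exact h3.measure_pos volume (hne.image _)

/-- Shadows of compact sets have finite area. -/
theorem area_shadow_lt_top {e : E3} (he : ‖e‖ = 1) {K : Set E3} (hK : IsCompact K) :
    μH[2] (shadow K e) < ⊤ := by
  obtain ⟨b, hb⟩ := exists_basis he
  let A : (Fin 2 → ℝ) → E3 := fun a => a 0 • b 1 + a 1 • b 2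
  have hA : LipschitzWith 2 A := by
    refine LipschitzWith.of_dist_le_mul fun x y => ?_
    rw [dist_eq_norm]
    have e1 : A x - A y = (x 0 - y 0) • b 1 + (x 1 - y 1) • b 2 := by
      show (x 0 • b 1 + x 1 • b 2) - (y 0 • b 1 + y 1 • b 2) = _
      rw [sub_smul, sub_smul]
      abel
    rw [e1]
    refine (norm_add_le _ _).trans ?_
    rw [norm_smul, norm_smul, b.norm_eq_one, b.norm_eq_one, mul_one, mul_one]
    have h0 : ‖x 0 - y 0‖ ≤ dist x y := by
      rw [← dist_eq_norm]; exact dist_le_pi_dist x y 0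
    have h1 : ‖x 1 - y 1‖ ≤ dist x y := by
      rw [← dist_eq_norm]; exact dist_le_pi_dist x y 1
    have : ((2 : NNReal) : ℝ) = 2 := rfl
    rw [this]
    linarith
  have h1 : shadow K e = A '' (crd b '' K) := by
    unfold shadow
    rw [image_image]
    apply image_congr
    intro x _
    show x - (inner ℝ e x) • e = (crd b x 0) • b 1 + (crd b x 1) • b 2
    have h2 := b.sum_repr' x
    rw [Fin.sum_univ_three, hb] at h2
    rw [crd_zero, crd_one]
    nth_rewrite 1 [← h2]
    abel
  rw [h1]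
  refine lt_of_le_of_lt (hA.hausdorffMeasure_image_le (d := 2) (by norm_num) _) ?_
  rw [vol_eq]
  have h3 : IsCompact (crd b '' K) := hK.image (crd b).continuous
  exact ENNReal.mul_lt_top (by norm_num) h3.measure_lt_top

/-- If the maximal section is as large as the shadow, then some parallel section has the whole
shadow. -/
theorem exists_full {e : E3} (he : ‖e‖ = 1) {K : Set E3} (hconv : Convex ℝ K) (hK : IsCompact K)
    (hint : (interior K).Nonempty) (hle : μH[2] (shadow K e) ≤ maxSec K e) :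
    ∃ t : ℝ, ∀ x ∈ K, x - (inner ℝ e x) • e + t • e ∈ K := by
  set p := μH[2] (shadow K e) with hp
  have hp0 : p ≠ 0 := by
    have h1 := area_shadow_pos he isOpen_interior hint
    have h2 : μH[2] (shadow (interior K) e) ≤ p := measure_mono (image_mono interior_subset)
    exact (lt_of_lt_of_le h1 h2).ne'
  have hpt : p ≠ ⊤ := (area_shadow_lt_top he hK).ne
  -- almost maximal sections
  have hex : ∀ n : ℕ, ∃ t : ℝ, p - ((n : ENNReal) + 1)⁻¹ < μH[2] (K ∩ plane e t) := by
    intro n
    have h1 : p - ((n : ENNReal) + 1)⁻¹ < p := by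
      apply ENNReal.sub_lt_self hpt hp0
      exact ENNReal.inv_ne_zero.2 (by finiteness)
    exact lt_iSup_iff.1 (lt_of_lt_of_le h1 hle)
  choose t ht using hex
  have hxn : ∀ n : ℕ, ∃ x ∈ K, inner ℝ e x = t n := by
    intro n
    have h1 : μH[2] (K ∩ plane e (t n)) ≠ 0 := (pos_of_gt (ht n)).ne'
    obtain ⟨x, hx⟩ := nonempty_of_measure_ne_zero h1
    exact ⟨x, hx.1, hx.2⟩
  choose x hxK hxt using hxn
  obtain ⟨y, hyK, φ, hφ, hlim⟩ := hK.tendsto_subseq hxK
  have hcont : Continuous fun z : E3 => (inner ℝ e z : ℝ) := by fun_prop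
  have htlim : Filter.Tendsto (fun n => t (φ n)) Filter.atTop (nhds (inner ℝ e y)) := by
    have h1 := (hcont.tendsto y).comp hlim
    refine h1.congr fun n => ?_
    exact hxt (φ n)
  refine ⟨inner ℝ e y, ?_⟩
  intro z hz
  by_contra hcon
  set w : E3 := z - (inner ℝ e z) • e with hw
  set τ : ℝ := inner ℝ e y with hτ
  have hopen : IsOpen Kᶜ := hK.isClosed.isOpen_compl
  obtain ⟨ρ, hρ, hball⟩ := Metric.isOpen_iff.1 hopen _ hcon
  -- the shadow near `w` has positive area
  set Bw : Set E3 := Metric.ball w (ρ / 2) with hBw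
  have hδ : 0 < μH[2] (shadow K e ∩ Bw) := by
    have hzc : z ∈ closure (interior K) := by
      rw [hconv.closure_interior_eq_closure_of_nonempty_interior hint]
      exact subset_closure hz
    have hne : (interior K ∩ Metric.ball z (ρ / 2)).Nonempty := by
      obtain ⟨u, hu, hd⟩ := Metric.mem_closure_iff.1 hzc (ρ / 2) (by linarith)
      exact ⟨u, hu, by rw [Metric.mem_ball, dist_comm]; exact hd⟩
    refine lt_of_lt_of_le (area_shadow_pos he (isOpen_interior.inter Metric.isOpen_ball) hne) ?_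
    apply measure_mono
    rintro _ ⟨u, ⟨hu1, hu2⟩, rfl⟩
    refine ⟨⟨u, interior_subset hu1, rfl⟩, ?_⟩
    rw [hBw, Metric.mem_ball]
    have h1 := (lipschitz_pr he).dist_le_mul u z
    rw [NNReal.coe_one, one_mul] at h1
    exact lt_of_le_of_lt h1 hu2
  have hsum : μH[2] (shadow K e ∩ Bw) + μH[2] (shadow K e \ Bw) = p :=
    measure_inter_add_sdiff _ Metric.isOpen_ball.measurableSet
  -- for large `n` the section misses `Bw`
  have hev : ∀ᶠ n in Filter.atTop, dist (t (φ n)) τ < ρ / 2 :=
    (Metric.tendsto_nhds.1 htlim) (ρ / 2) (by linarith)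
  have hlarge : ∀ᶠ n : ℕ in Filter.atTop, (((φ n : ℕ) : ENNReal) + 1)⁻¹ <
      μH[2] (shadow K e ∩ Bw) := by
    have h1 : Filter.Tendsto (fun n : ℕ => ((n : ENNReal) + 1)⁻¹) Filter.atTop (nhds 0) := by
      have h2 := ENNReal.tendsto_inv_nat_nhds_zero.comp (Filter.tendsto_add_atTop_nat 1)
      refine h2.congr fun n => ?_
      simp
    exact ((h1.comp hφ.tendsto_atTop).eventually (gt_mem_nhds hδ))
  obtain ⟨n, hn1, hn2⟩ := (hev.and hlarge).exists
  have hsub : shadow (K ∩ plane e (t (φ n))) e ⊆ shadow K e \ Bw := by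
    rintro _ ⟨u, ⟨hu1, hu2⟩, rfl⟩
    refine ⟨⟨u, hu1, rfl⟩, ?_⟩
    intro hu3
    have hu2' : inner ℝ e u = t (φ n) := hu2
    refine hball (a := u) ?_ hu1
    rw [Metric.mem_ball]
    have e1 : u = (u - (inner ℝ e u) • e) + (t (φ n)) • e := by
      rw [hu2']; abel
    rw [e1]
    refine lt_of_le_of_lt (dist_add_add_le _ _ _ _) ?_
    have h3 : dist (u - (inner ℝ e u) • e) w < ρ / 2 := hu3
    have h4 : dist ((t (φ n)) • e) (τ • e) < ρ / 2 := by
      rw [dist_eq_norm, ← sub_smul, norm_smul, he, mul_one, ← dist_eq_norm]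
      exact hn1
    linarith
  have h5 : μH[2] (K ∩ plane e (t (φ n))) ≤ μH[2] (shadow K e \ Bw) := by
    rw [← area_sec_eq]
    exact measure_mono hsub
  have h6 : μH[2] (shadow K e \ Bw) = p - μH[2] (shadow K e ∩ Bw) := by
    have hfin : μH[2] (shadow K e ∩ Bw) ≠ ⊤ :=
      (lt_of_le_of_lt (measure_mono inter_subset_left) (area_shadow_lt_top he hK)).ne
    rw [← hsum, ENNReal.add_sub_cancel_left hfin]
  have h7 : p - μH[2] (shadow K e ∩ Bw) ≤ p - (((φ n : ℕ) : ENNReal) + 1)⁻¹ :=
    tsub_le_tsub_left hn2.le p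
  have h8 := ht (φ n)
  exact absurd (lt_of_lt_of_le h8 (h5.trans (h6.le.trans h7))) (lt_irrefl _)

end Pool.Agent.Helper83.BO
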